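import Pool.Agent.H66.IP.TC

/-!
Module PLT of the board ipf_modules.
-/

set_option autoImplicit false

namespace Pool.Agent.H18.IP

open Finset Pool.Agent.H66.IP Pool.Agent.H6.NB Pool.Agent.H70.OQ Pool.Agent.H70.EH
open Pool.Agent.H70.EI Pool.Agent.H78.XQ

theorem nstr_len (n : ℕ) : ∀ (k : ℕ) (x : Nn n k), (nstr n k x).length = (2 ^ (k + 1) - 1) * n := by
  intro k
  induction k with
  | zero =>
    intro x
    show (List.ofFn (x : Fin n → Bool)).length = _
    rw [List.length_ofFn]
    norm_num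
  | succ k ih =>
    intro x
    show (nstr n k x.1 ++ List.ofFn (x.2 : Ys n k)).length = _
    rw [List.length_append, ih, List.length_ofFn, ← Nat.add_mul]
    congr 1
    have : 1 ≤ 2 ^ (k + 1) := Nat.one_le_two_pow
    rw [pow_succ 2 (k + 1)]
    omega

theorem nstr_inj (n : ℕ) : ∀ (k : ℕ) (x x' : Nn n k), nstr n k x = nstr n k x' → x = x' := by
  intro k
  induction k with
  | zero =>
    intro x x' h
    exact List.ofFn_injective h
  | succ k ih =>
    intro x x' h
    have h' : nstr n k x.1 ++ List.ofFn (x.2 : Ys n k) = nstr n k x'.1 ++ List.ofFn (x'.2 : Ys n k) := h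
    obtain ⟨h1, h2⟩ := List.append_inj' h' (by rw [List.length_ofFn, List.length_ofFn])
    exact Prod.ext (ih _ _ h1) (List.ofFn_injective h2)

theorem nd_congr (O O' : List Bool → Bool) : ∀ (k l : ℕ) (w : List Bool),
    (∀ w' : List Bool, w'.length = w.length + (2 ^ k - 1) * l → O w' = O' w') →
    (Nd O k l w ↔ Nd O' k l w) := by
  intro k
  induction k with
  | zero =>
    intro l w h
    show O w = true ↔ O' w = true
    rw [h w (by simp)]
  | succ k ih =>
    intro l w h
    show (∃ v : List Bool, v.length = l ∧ ¬ Nd O k (2 * l) (w ++ v)) ↔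
      (∃ v : List Bool, v.length = l ∧ ¬ Nd O' k (2 * l) (w ++ v))
    refine exists_congr fun v => and_congr_right fun hv => not_congr ?_
    refine ih (2 * l) (w ++ v) fun w' hw' => h w' ?_
    rw [hw', List.length_append, hv, pow_succ]
    have h1 : 1 ≤ 2 ^ k := Nat.one_le_two_pow
    obtain ⟨m, hm⟩ : ∃ m, 2 ^ k = m + 1 := ⟨2 ^ k - 1, by omega⟩
    rw [hm]
    have e1 : m + 1 - 1 = m := by omega
    have e2 : (m + 1) * 2 - 1 = 2 * m + 1 := by omega
    rw [e1, e2]
    ring

theorem pf_PLT (hNDV : Pool.Agent.H70.OQ.T_NDV) : T_PLT := by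
  refine ⟨fun k n O H => ⟨fun h => ?_, fun x h => ?_⟩, fun k n x => ?_, fun k n => nstr_inj n k,
    fun k n O O' h => ?_⟩
  · rintro ⟨u, hu, hs⟩
    rw [List.length_replicate] at hu
    subst hu
    have h4 := hNDV k u.length O (fun _ => true) H h u.get
    rw [List.ofFn_get] at h4
    exact absurd (h4.1 hs) (by simp)
  · refine ⟨List.ofFn x, ?_, ?_⟩
    · rw [List.length_replicate, List.length_ofFn]
    · exact (hNDV k n O (fun x' => !decide (x' = x)) H h x).2 (by simp)
  · rw [nstr_len]
    have h1 : 1 ≤ 2 ^ k := Nat.one_le_two_pow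
    constructor
    · calc n = 1 * n := (one_mul n).symm
        _ ≤ (2 ^ (k + 1) - 1) * n := Nat.mul_le_mul_right _ (by rw [pow_succ]; omega)
    · exact Nat.mul_le_mul_right _ (Nat.sub_le _ _)
  · refine exists_congr fun u => and_congr_right fun hu => not_congr ?_
    rw [List.length_replicate] at hu
    refine nd_congr O O' k (2 * u.length) (false :: u) fun w hw => h w ?_
    rw [hw, List.length_cons, hu]
    have h1 : 1 ≤ 2 ^ k := Nat.one_le_two_pow
    obtain ⟨m, hm⟩ : ∃ m, 2 ^ k = m + 1 := ⟨2 ^ k - 1, by omega⟩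
    rw [pow_succ, hm]
    have e1 : m + 1 - 1 = m := by omega
    rw [e1]
    nlinarith

end Pool.Agent.H18.IP
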