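import Pool.Agent.H6.NB.Defs

/-!
# The second Fourier level of the value of a public coin interactive proof: definitions

A game on the input `b : ι → Bool` is a tree with average nodes (coins), choice nodes (messages of the
prover) and leaves (the decision of the verifier after reading at most `q` bits of `b`). The maximum at the
choice nodes is replaced by a soft maximum with parameter `β`.
-/

set_option autoImplicit false

namespace Pool.Agent.H18.IP

open Finset Pool.Agent.H6.NB

/-! ## Part A: four corners -/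

/-- The values `g` and the influences `X`, `Y` of two bits at the four corners of a square; `!s` flips the
first bit, `!t` flips the second bit. -/
structure Edg (g X Y : Bool → Bool → ℝ) : Prop where
  X0 : ∀ s t, 0 ≤ X s t
  X1 : ∀ s t, X s t ≤ 1
  Y0 : ∀ s t, 0 ≤ Y s t
  Y1 : ∀ s t, Y s t ≤ 1
  gX : ∀ s t, g s t - g (!s) t ≤ X s t
  gY : ∀ s t, g s t - g s (!t) ≤ Y s t
  gXY : ∀ s t, g s t - g (!s) (!t) ≤ X s t + Y s t

/-- The local contribution of a node. -/
def own (X Y : Bool → Bool → ℝ) (s t : Bool) : ℝ :=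
  X s t * (Y s t + Y (!s) t) + Y s t * (X s t + X s (!t))

/-- The sum over the corners. -/
def S4 (f : Bool → Bool → ℝ) : ℝ := f false false + f false true + f true false + f true true

/-- The mixed difference. -/
def dd (g : Bool → Bool → ℝ) : ℝ := g false false - g false true - g true false + g true true

/-- The invariant of a node on a square: `trX`, `trY` transport the influences, `D` bounds the mixed
difference. -/
structure Sqr (θ ε K : ℝ) (g X Y R : Bool → Bool → ℝ) : Prop where
  edg : Edg g X Y
  R0 : ∀ s t, 0 ≤ R s t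
  trX : ∀ s t, X s t ≤ ε * (X s (!t) + θ⁻¹ * R s t + θ⁻¹ * R s (!t))
  trY : ∀ s t, Y s t ≤ ε * (Y (!s) t + θ⁻¹ * R s t + θ⁻¹ * R (!s) t)
  D : |dd g| ≤ K * S4 R

/-- The bilinear interpolation. -/
def bl (g : Bool → Bool → ℝ) (σ τ : ℝ) : ℝ :=
  (1 - σ) * (1 - τ) * g false false + (1 - σ) * τ * g false true + σ * (1 - τ) * g true false +
    σ * τ * g true true

/-- The derivative of `bl` in the first direction. -/
def bx (g : Bool → Bool → ℝ) (τ : ℝ) : ℝ :=
  (1 - τ) * (g true false - g false false) + τ * (g true true - g false true)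

/-- The derivative of `bl` in the second direction. -/
def by' (g : Bool → Bool → ℝ) (σ : ℝ) : ℝ :=
  (1 - σ) * (g false true - g false false) + σ * (g true true - g true false)

section soft

variable {κ : Type} [Fintype κ]

/-- The soft maximum. -/
noncomputable def sm (β : ℝ) (w g : κ → ℝ) : ℝ := β⁻¹ * Real.log (∑ m, w m * Real.exp (β * g m))

/-- The Gibbs weights. -/
noncomputable def gib (β : ℝ) (w g : κ → ℝ) (m : κ) : ℝ := w m * Real.exp (β * (g m - sm β w g))

end soft

/-! ## Part B: functions of many bits -/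

section many

variable {ι : Type}

/-- `f` reads at most `q` bits (adaptively): `T b` is the set of the bits which are read at the input `b`. -/
def Lf (q : ℕ) (f : (ι → Bool) → Bool) : Prop :=
  ∃ T : (ι → Bool) → Finset ι, (∀ b, (T b).card ≤ q) ∧
    ∀ b b', (∀ i ∈ T b, b' i = b i) → f b' = f b ∧ T b' = T b

/-- The soft values of the games with at most `h` choice nodes on a path and `q` queries at the leaves. -/
inductive Gm (β : ℝ) (q : ℕ) : ℕ → ((ι → Bool) → ℝ) → Prop
  | leaf (h : ℕ) (f : (ι → Bool) → Bool) : Lf q f → Gm β q h fun b => bi (f b)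
  | avg (h : ℕ) (κ : Type) [Fintype κ] (w : κ → ℝ) (G : κ → (ι → Bool) → ℝ) : (∀ m, 0 ≤ w m) →
      ∑ m, w m = 1 → (∀ m, Gm β q h (G m)) → Gm β q h fun b => ∑ m, w m * G m b
  | cho (h : ℕ) (κ : Type) [Fintype κ] (w : κ → ℝ) (G : κ → (ι → Bool) → ℝ) : (∀ m, 0 ≤ w m) →
      ∑ m, w m = 1 → (∀ m, Gm β q h (G m)) → Gm β q (h + 1) fun b => sm β w fun m => G m b

variable [DecidableEq ι]

/-- Flip one bit. -/
def flp (x : ι) (b : ι → Bool) : ι → Bool := Function.update b x (!b x)

/-- The corners of a square. -/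
def cor (x y : ι) (b : ι → Bool) (s t : Bool) : ι → Bool :=
  if s then flp x (if t then flp y b else b) else (if t then flp y b else b)

/-- The local contribution. -/
def own2 (A : ι → (ι → Bool) → ℝ) (x y : ι) (b : ι → Bool) : ℝ :=
  A x b * (A y b + A y (flp x b)) + A y b * (A x b + A x (flp y b))

/-- The invariant of a node. -/
structure Gd [Fintype ι] (θ ε K q Rb : ℝ) (G : (ι → Bool) → ℝ) (A : ι → (ι → Bool) → ℝ)
    (R : ι → ι → (ι → Bool) → ℝ) : Prop where
  A0 : ∀ z b, 0 ≤ A z b
  A1 : ∀ z b, A z b ≤ 1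
  As : ∀ b, ∑ z, A z b ≤ q
  R0 : ∀ x y b, 0 ≤ R x y b
  Rs : ∀ b, ∑ x, ∑ y, R x y b ≤ Rb
  sq : ∀ x y, x ≠ y → ∀ b, Sqr θ ε K (fun s t => G (cor x y b s t)) (fun s t => A x (cor x y b s t))
    (fun s t => A y (cor x y b s t)) fun s t => R x y (cor x y b s t)

end many

end Pool.Agent.H18.IP
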