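import Pool.Agent.H66.IP.TC
import Pool.Agent.H70.EI.Targets

/-!
Module SMS of the board ipf_modules.
-/

set_option autoImplicit false

namespace Pool.Agent.H18.IP

open Finset Pool.Agent.H66.IP Pool.Agent.H6.NB Pool.Agent.H70.OQ Pool.Agent.H70.EH
open Pool.Agent.H70.EI Pool.Agent.H78.XQ

/-- A machine. -/
def trivM : Machine 1 where
  c := 0
  tree _ _ := .leaf false
  depth_le _ _ _ _ := Nat.zero_le _
  short _ _ _ _ := trivial

theorem scale_eq (V : ℕ → Local) (p : ℕ × List Bool) :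
    scale (dm V p.1) p.1 p.2 = scl V p := by
  unfold scale scl Pool.Agent.H66.IP.dm dmy
  simp only [Nat.log_pow Nat.one_lt_two]
  omega

theorem geo (n m : ℕ) (h : n ≤ m) :
    ∑ s ∈ Finset.Ico n m, (1 / 4 : ℝ) ^ s ≤ 4 / 3 * ((1 / 4) ^ n - (1 / 4) ^ m) := by
  induction m, h using Nat.le_induction with
  | base => simp
  | succ m hm ih =>
    rw [Finset.sum_Ico_succ_top hm, pow_succ (1 / 4 : ℝ) m]
    linarith

theorem pf_SMS (hCNT : Pool.Agent.H70.EI.T_CNT) (hRHO : Pool.Agent.H70.EI.T_RHO) : T_SMS := by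
  classical
  intro V E n hn hE
  obtain ⟨ρ, hρ⟩ := hRHO fun _ => ⟨0, trivM⟩
  have hcount : ∀ r : ℕ, 20 ≤ r → 3 * (E.filter fun p => scl V p ≤ r).card ≤ 2 ^ r := by
    intro r hr
    have h := hCNT (dm V) (fun _ => ⟨0, trivM⟩) ρ hρ (E.map ⟨Sum.inl, Sum.inl_injective⟩) r hr
    have e : ((E.map ⟨Sum.inl, Sum.inl_injective⟩).filter fun i => key (dm V) ρ i ≤ r) =
        (E.filter fun p => scl V p ≤ r).map ⟨Sum.inl, Sum.inl_injective⟩ := by
      ext i
      simp only [Finset.mem_filter, Finset.mem_map, Function.Embedding.coeFn_mk]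
      constructor
      · rintro ⟨⟨p, hp, rfl⟩, hk⟩
        refine ⟨p, ⟨hp, ?_⟩, rfl⟩
        rw [← scale_eq]
        exact hk
      · rintro ⟨p, ⟨hp, hs⟩, rfl⟩
        refine ⟨⟨p, hp, rfl⟩, ?_⟩
        rw [← scale_eq] at hs
        exact hs
    rw [e, Finset.card_map] at h
    exact h
  set N := E.sup (scl V) + n + 2 with hN
  have hmaps : ∀ p ∈ E, scl V p ∈ Finset.Ico (n + 1) N := by
    intro p hp
    have h1 := Finset.le_sup (f := scl V) hp
    have h2 := hE p hp
    rw [Finset.mem_Ico]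
    omega
  rw [← Finset.sum_fiberwise_of_maps_to hmaps]
  calc ∑ s ∈ Finset.Ico (n + 1) N, ∑ p ∈ E.filter (fun p => scl V p = s), (1 / 8 : ℝ) ^ scl V p
      ≤ ∑ s ∈ Finset.Ico (n + 1) N, (1 / 4 : ℝ) ^ s := by
        refine Finset.sum_le_sum fun s hs => ?_
        rw [Finset.mem_Ico] at hs
        have h1 : ∑ p ∈ E.filter (fun p => scl V p = s), (1 / 8 : ℝ) ^ scl V p =
            (E.filter fun p => scl V p = s).card * (1 / 8 : ℝ) ^ s := by
          rw [Finset.sum_congr rfl (g := fun _ => (1 / 8 : ℝ) ^ s)]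
          · rw [Finset.sum_const, nsmul_eq_mul]
          · intro p hp
            rw [(Finset.mem_filter.mp hp).2]
        rw [h1]
        have h2 : (E.filter fun p => scl V p = s).card ≤ 2 ^ s := by
          have h3 := hcount s (by omega)
          have h4 : (E.filter fun p => scl V p = s).card ≤ (E.filter fun p => scl V p ≤ s).card := by
            refine Finset.card_le_card fun p hp => ?_
            rw [Finset.mem_filter] at hp ⊢
            exact ⟨hp.1, hp.2.le⟩
          omega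
        have h5 : (((E.filter fun p => scl V p = s).card : ℕ) : ℝ) ≤ 2 ^ s := by
          exact_mod_cast h2
        calc (((E.filter fun p => scl V p = s).card : ℕ) : ℝ) * (1 / 8 : ℝ) ^ s
            ≤ 2 ^ s * (1 / 8 : ℝ) ^ s := mul_le_mul_of_nonneg_right h5 (by positivity)
          _ = (1 / 4 : ℝ) ^ s := by
            rw [← mul_pow]
            norm_num
    _ ≤ 4 / 3 * ((1 / 4) ^ (n + 1) - (1 / 4) ^ N) := geo (n + 1) N (by omega)
    _ ≤ (1 / 4) ^ n := by
      have h1 : (0 : ℝ) ≤ (1 / 4) ^ N := by positivity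
      have h2 : (0 : ℝ) ≤ (1 / 4) ^ n := by positivity
      rw [pow_succ]
      linarith

end Pool.Agent.H18.IP
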