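import Pool.Agent.H18.IP.Targets

/-!
Module SQB of the board ipc_modules.
-/

set_option autoImplicit false

namespace Pool.Agent.H18.IP.SQB

open Finset Pool.Agent.H6.NB Pool.Agent.H18.IP

/-- The numerical core. -/
theorem num (g0 g1 g2 g3 x0 x1 x2 x3 y0 y1 θ : ℝ) (hθ : 0 < θ) (hθ1 : θ ≤ 1)
    (x0p : 0 ≤ x0) (x1p : 0 ≤ x1) (x2p : 0 ≤ x2) (x3p : 0 ≤ x3) (y0p : 0 ≤ y0) (y1p : 0 ≤ y1)
    (x3l : x3 ≤ 1) (hx0 : x0 < θ)
    (h1 : g0 - g1 ≤ x0) (h2 : g0 - g2 ≤ y0) (h3 : g0 - g3 ≤ x0 + y0)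
    (h4 : g1 - g3 ≤ y1) (h5 : g1 - g2 ≤ x1 + y1)
    (hl : 4 * θ ≤ g0 - g2 ∨ 4 * θ ≤ g0 - g3) :
    θ ^ 2 * x0 ≤ x0 * (y0 + y1) + y0 * (x0 + x2) ∧
    θ ^ 2 * x1 ≤ x1 * (y1 + y0) + y1 * (x1 + x3) ∧
    θ ^ 2 * x2 ≤ x0 * (y0 + y1) + y0 * (x0 + x2) ∧
    θ ^ 2 * x3 ≤ x1 * (y1 + y0) + y1 * (x1 + x3) := by
  have hy : 3 * θ ≤ y0 := by rcases hl with h | h <;> linarith
  have t2 : θ ^ 2 ≤ θ := by nlinarith
  have t3 : θ ^ 2 ≤ y0 := by linarith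
  have p1 := mul_nonneg x0p y0p
  have p2 := mul_nonneg x0p y1p
  have p3 := mul_nonneg y0p x2p
  have p4 := mul_nonneg x1p y1p
  have p5 := mul_nonneg y1p x3p
  have p6 := mul_nonneg x1p y0p
  refine ⟨?_, ?_, ?_, ?_⟩
  · have := mul_le_mul_of_nonneg_right t3 x0p
    nlinarith
  · have := mul_le_mul_of_nonneg_right t3 x1p
    nlinarith
  · have := mul_le_mul_of_nonneg_right t3 x2p
    nlinarith
  · by_cases hy1 : θ ≤ y1
    · have := mul_le_mul_of_nonneg_right (t2.trans hy1) x3p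
      nlinarith
    · push Not at hy1
      have hx1 : 2 * θ ≤ x1 := by
        rcases hl with h | h
        · linarith
        · linarith
      have h6 : 2 * θ * (3 * θ) ≤ x1 * y0 := mul_le_mul hx1 hy (by positivity) x1p
      have h7 : θ ^ 2 * x3 ≤ θ ^ 2 * 1 := mul_le_mul_of_nonneg_left x3l (by positivity)
      nlinarith

theorem half (g X Y : Bool → Bool → ℝ) (θ : ℝ) (i j k l : Bool) (h : Edg g X Y) (hθ : 0 < θ)
    (hθ1 : θ ≤ 1) (hkl : 4 * θ ≤ g i j - g k l) :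
    θ ≤ X i j ∨ ∃ s t, g i j - 4 * θ ≤ g s t ∧ ∀ s' t', X s' t' ≤ θ⁻¹ ^ 2 * own X Y s t := by
  by_cases hX : θ ≤ X i j
  · exact Or.inl hX
  right
  push Not at hX
  have e1 := h.gX i j
  have e4 := h.gY (!i) j
  have e5 := h.gXY (!i) j
  rw [Bool.not_not] at e5
  have hl : 4 * θ ≤ g i j - g i (!j) ∨ 4 * θ ≤ g i j - g (!i) (!j) := by
    rcases Bool.eq_or_eq_not k i with hk | hk <;> rcases Bool.eq_or_eq_not l j with hl | hl <;>
      rw [hk, hl] at hkl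
    · linarith
    · exact Or.inl hkl
    · linarith
    · exact Or.inr hkl
  obtain ⟨c0, c1, c2, c3⟩ := num (g i j) (g (!i) j) (g i (!j)) (g (!i) (!j)) (X i j) (X (!i) j)
    (X i (!j)) (X (!i) (!j)) (Y i j) (Y (!i) j) θ hθ hθ1 (h.X0 _ _) (h.X0 _ _) (h.X0 _ _)
    (h.X0 _ _) (h.Y0 _ _) (h.Y0 _ _) (h.X1 _ _) hX e1 (h.gY i j) (h.gXY i j) e4 e5 hl
  have o0 : own X Y i j = X i j * (Y i j + Y (!i) j) + Y i j * (X i j + X i (!j)) := rfl
  have o1 : own X Y (!i) j =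
      X (!i) j * (Y (!i) j + Y i j) + Y (!i) j * (X (!i) j + X (!i) (!j)) := by
    unfold own
    rw [Bool.not_not]
  rw [← o0] at c0 c2
  rw [← o1] at c1 c3
  have key : ∀ a o : ℝ, θ ^ 2 * a ≤ o → a ≤ θ⁻¹ ^ 2 * o := by
    intro a o hao
    have : θ⁻¹ ^ 2 * (θ ^ 2 * a) ≤ θ⁻¹ ^ 2 * o := mul_le_mul_of_nonneg_left hao (by positivity)
    have e : θ⁻¹ ^ 2 * (θ ^ 2 * a) = a := by
      field_simp
    linarith
  have hall : ∀ o, own X Y i j ≤ o → own X Y (!i) j ≤ o → ∀ s' t', X s' t' ≤ θ⁻¹ ^ 2 * o := by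
    intro o h0 h1 s' t'
    apply key
    rcases Bool.eq_or_eq_not s' i with hs | hs <;> rcases Bool.eq_or_eq_not t' j with ht | ht <;>
      rw [hs, ht] <;> linarith
  rcases le_total (own X Y i j) (own X Y (!i) j) with ho | ho
  · exact ⟨!i, j, by linarith, hall _ ho le_rfl⟩
  · exact ⟨i, j, by linarith, hall _ le_rfl ho⟩

theorem edg_swap {g X Y : Bool → Bool → ℝ} (h : Edg g X Y) :
    Edg (fun s t => g t s) (fun s t => Y t s) fun s t => X t s where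
  X0 s t := h.Y0 t s
  X1 s t := h.Y1 t s
  Y0 s t := h.X0 t s
  Y1 s t := h.X1 t s
  gX s t := h.gY t s
  gY s t := h.gX t s
  gXY s t := by
    have := h.gXY t s
    show g t s - g (!t) (!s) ≤ Y t s + X t s
    linarith

theorem own_swap (X Y : Bool → Bool → ℝ) (s t : Bool) :
    own (fun s t => Y t s) (fun s t => X t s) s t = own X Y t s := by
  unfold own
  ring

theorem pf_SQB : T_SQB := by
  intro g X Y θ i j k l h hθ hθ1 _ hkl
  refine ⟨half g X Y θ i j k l h hθ hθ1 hkl, ?_⟩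
  rcases half (fun s t => g t s) (fun s t => Y t s) (fun s t => X t s) θ j i l k (edg_swap h) hθ hθ1
    hkl with h1 | ⟨s, t, h1, h2⟩
  · exact Or.inl h1
  · refine Or.inr ⟨t, s, h1, fun s' t' => ?_⟩
    have := h2 t' s'
    rw [own_swap] at this
    exact this

end Pool.Agent.H18.IP.SQB
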