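import Pool.Agent.H18.IP.Defs

/-!
# The second Fourier level of the value of a public coin interactive proof: module targets
-/

set_option autoImplicit false

namespace Pool.Agent.H18.IP

open Finset Pool.Agent.H6.NB

/-! ## Part A: four corners -/

/-- SQA: the product of two edges. -/
def T_SQA : Prop := ∀ g X Y : Bool → Bool → ℝ, Edg g X Y → ∀ s t : Bool,
  |g true t - g false t| * |g s true - g s false| ≤ 2 * S4 (own X Y)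

/-- SQB: large variation. -/
def T_SQB : Prop := ∀ (g X Y : Bool → Bool → ℝ) (θ : ℝ) (i j k l : Bool), Edg g X Y → 0 < θ → θ ≤ 1 →
  (∀ s t, g s t ≤ g i j) → 4 * θ ≤ g i j - g k l →
  (θ ≤ X i j ∨ ∃ s t, g i j - 4 * θ ≤ g s t ∧ ∀ s' t', X s' t' ≤ θ⁻¹ ^ 2 * own X Y s t) ∧
  (θ ≤ Y i j ∨ ∃ s t, g i j - 4 * θ ≤ g s t ∧ ∀ s' t', Y s' t' ≤ θ⁻¹ ^ 2 * own X Y s t)

/-- CHD: the contribution of one child; `P` are its weights at the corners, `p` is its weight at the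
interior point `(σ, τ)`. -/
def T_CHD : Prop := ∀ (g X Y R P : Bool → Bool → ℝ) (θ K E p σ τ : ℝ), Edg g X Y → 0 < θ → θ ≤ 1 →
  (∀ s t, 0 ≤ R s t) → |dd g| ≤ K * S4 R → 2 * θ⁻¹ ^ 2 ≤ K → 0 ≤ E → 0 ≤ p → (∀ s t, 0 ≤ P s t) →
  (∀ s t, (∀ s' t', g s' t' - 4 * θ ≤ g s t) → p ≤ E * P s t) →
  0 ≤ σ → σ ≤ 1 → 0 ≤ τ → τ ≤ 1 →
  p * |dd g| ≤ E * K * S4 (fun s t => P s t * (own X Y s t + R s t)) ∧
  p * |bx g τ * by' g σ| ≤ 2 * θ⁻¹ ^ 2 * E * S4 (fun s t => P s t * own X Y s t) ∧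
  p * |bx g τ| ≤ E * (θ⁻¹ * S4 (fun s t => P s t * X s t) +
    θ⁻¹ ^ 2 * S4 (fun s t => P s t * own X Y s t)) ∧
  p * |by' g σ| ≤ E * (θ⁻¹ * S4 (fun s t => P s t * Y s t) +
    θ⁻¹ ^ 2 * S4 (fun s t => P s t * own X Y s t)) ∧
  |bx g τ| ≤ 1 ∧ |by' g σ| ≤ 1

/-- LSE: the soft maximum and its weights. -/
def T_LSE : Prop := ∀ (κ : Type) [Fintype κ] (β : ℝ) (w g g' : κ → ℝ), 0 < β → (∀ m, 0 ≤ w m) →
  ∑ m, w m = 1 →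
  (∀ m, 0 ≤ gib β w g m) ∧ ∑ m, gib β w g m = 1 ∧
  sm β w g - sm β w g' ≤ ∑ m, gib β w g m * (g m - g' m) ∧
  (∀ c, (∀ m, g m ≤ c) → sm β w g ≤ c) ∧ (∀ c, (∀ m, c ≤ g m) → c ≤ sm β w g) ∧
  ∀ m, 0 < w m → g m + β⁻¹ * Real.log (w m) ≤ sm β w g

/-- MXD: the mixed difference of the soft maximum is a mixed derivative at an interior point. -/
def T_MXD : Prop := ∀ (κ : Type) [Fintype κ] (β : ℝ) (w : κ → ℝ) (g : κ → Bool → Bool → ℝ), 0 < β →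
  (∀ m, 0 ≤ w m) → ∑ m, w m = 1 → ∃ σ τ : ℝ, 0 ≤ σ ∧ σ ≤ 1 ∧ 0 ≤ τ ∧ τ ≤ 1 ∧
  dd (fun s t => sm β w fun m => g m s t) =
    ∑ m, gib β w (fun m => bl (g m) σ τ) m * dd (g m) +
    β * (∑ m, gib β w (fun m => bl (g m) σ τ) m * (bx (g m) τ * by' (g m) σ) -
      (∑ m, gib β w (fun m => bl (g m) σ τ) m * bx (g m) τ) *
        ∑ m, gib β w (fun m => bl (g m) σ τ) m * by' (g m) σ)

/-- WTS: the weights at an interior point. -/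
def T_WTS : Prop := ∀ (κ : Type) [Fintype κ] (β θ : ℝ) (w : κ → ℝ) (g X Y : κ → Bool → Bool → ℝ),
  0 < β → 0 < θ → (∀ m, 0 ≤ w m) → ∑ m, w m = 1 → (∀ m, Edg (g m) (X m) (Y m)) →
  (∀ s t, ∑ m, gib β w (fun m => g m s t) m * X m s t ≤ θ) →
  (∀ s t, ∑ m, gib β w (fun m => g m s t) m * Y m s t ≤ θ) →
  ∀ σ τ : ℝ, 0 ≤ σ → σ ≤ 1 → 0 ≤ τ → τ ≤ 1 → ∀ m s t, (∀ s' t', g m s' t' - 4 * θ ≤ g m s t) →
  gib β w (fun m => bl (g m) σ τ) m ≤ Real.exp (6 * β * θ) * gib β w (fun m => g m s t) m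

/-- EDC: edges of a choice node. -/
def T_EDC : Prop := ∀ (κ : Type) [Fintype κ] (β : ℝ) (w : κ → ℝ) (g X Y : κ → Bool → Bool → ℝ),
  0 < β → (∀ m, 0 ≤ w m) → ∑ m, w m = 1 → (∀ m, Edg (g m) (X m) (Y m)) →
  Edg (fun s t => sm β w fun m => g m s t)
    (fun s t => ∑ m, gib β w (fun m => g m s t) m * X m s t)
    fun s t => ∑ m, gib β w (fun m => g m s t) m * Y m s t

/-- TRC: transport at a choice node. -/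
def T_TRC : Prop := ∀ (κ : Type) [Fintype κ] (β θ ε K : ℝ) (w : κ → ℝ)
  (g X Y R : κ → Bool → Bool → ℝ), 0 < β → 0 < θ → 1 ≤ ε → (∀ m, 0 ≤ w m) → ∑ m, w m = 1 →
  (∀ m, Sqr θ ε K (g m) (X m) (Y m) (R m)) →
  ∀ G X' Y' R' : Bool → Bool → ℝ, (∀ s t, G s t = sm β w fun m => g m s t) →
  (∀ s t, X' s t = ∑ m, gib β w (fun m => g m s t) m * X m s t) →
  (∀ s t, Y' s t = ∑ m, gib β w (fun m => g m s t) m * Y m s t) →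
  (∀ s t, R' s t = own X' Y' s t + ∑ m, gib β w (fun m => g m s t) m *
    (own (X m) (Y m) s t + R m s t)) →
  (∀ s t, X' s t ≤ Real.exp (2 * β * θ) * ε * (X' s (!t) + θ⁻¹ * R' s t + θ⁻¹ * R' s (!t))) ∧
  ∀ s t, Y' s t ≤ Real.exp (2 * β * θ) * ε * (Y' (!s) t + θ⁻¹ * R' s t + θ⁻¹ * R' (!s) t)

/-- DBA: the mixed difference of a node with a large influence. -/
def T_DBA : Prop := ∀ (g X Y R : Bool → Bool → ℝ) (θ ε : ℝ), Edg g X Y → 0 < θ → θ ≤ 1 → 1 ≤ ε →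
  ε ≤ 4 / 3 → (∀ s t, own X Y s t ≤ R s t) →
  (∀ s t, X s t ≤ ε * (X s (!t) + θ⁻¹ * R s t + θ⁻¹ * R s (!t))) →
  (∀ s t, Y s t ≤ ε * (Y (!s) t + θ⁻¹ * R s t + θ⁻¹ * R (!s) t)) →
  (∃ s t, θ ≤ X s t ∨ θ ≤ Y s t) → |dd g| ≤ 4 * θ⁻¹ * S4 R

/-- XYB: the product of the total influences of a node with small influences. -/
def T_XYB : Prop := ∀ (g X Y R : Bool → Bool → ℝ) (θ ε : ℝ), Edg g X Y → 0 < θ → θ ≤ 1 → 1 ≤ ε →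
  ε ≤ 4 / 3 → (∀ s t, own X Y s t ≤ R s t) →
  (∀ s t, Y s t ≤ ε * (Y (!s) t + θ⁻¹ * R s t + θ⁻¹ * R (!s) t)) →
  (∀ s t, X s t ≤ θ) → S4 X * S4 Y ≤ 6 * S4 R

/-- CHO: the invariant at a choice node. -/
def T_CHO : Prop := ∀ (κ : Type) [Fintype κ] (β θ ε K : ℝ) (w : κ → ℝ)
  (g X Y R : κ → Bool → Bool → ℝ), 0 < β → 0 < θ → θ ≤ 1 / 2 → 1 ≤ ε →
  Real.exp (2 * β * θ) * ε ≤ 4 / 3 → Real.exp (6 * β * θ) ≤ 2.12 → 2 * θ⁻¹ ^ 2 ≤ K →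
  (∀ m, 0 ≤ w m) → ∑ m, w m = 1 → (∀ m, Sqr θ ε K (g m) (X m) (Y m) (R m)) →
  ∀ X' Y' : Bool → Bool → ℝ,
  (∀ s t, X' s t = ∑ m, gib β w (fun m => g m s t) m * X m s t) →
  (∀ s t, Y' s t = ∑ m, gib β w (fun m => g m s t) m * Y m s t) →
  Sqr θ (Real.exp (2 * β * θ) * ε) (Real.exp (6 * β * θ) * K + 36 * β * θ⁻¹ ^ 2)
    (fun s t => sm β w fun m => g m s t) X' Y'
    fun s t => own X' Y' s t + ∑ m, gib β w (fun m => g m s t) m * (own (X m) (Y m) s t + R m s t)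

/-! ## Part B: functions of many bits -/

/-- GDM: monotonicity. -/
def T_GDM : Prop := ∀ (ι : Type) [Fintype ι] [DecidableEq ι] (θ ε ε' K K' q Rb Rb' : ℝ)
  (G : (ι → Bool) → ℝ) (A : ι → (ι → Bool) → ℝ) (R : ι → ι → (ι → Bool) → ℝ), 0 < θ →
  Gd θ ε K q Rb G A R → ε ≤ ε' → K ≤ K' → Rb ≤ Rb' → Gd θ ε' K' q Rb' G A R

/-- GDL: leaves. -/
def T_GDL : Prop := ∀ (ι : Type) [Fintype ι] [DecidableEq ι] (θ K : ℝ) (q : ℕ)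
  (f : (ι → Bool) → Bool), 0 < θ → θ ≤ 1 → 1 ≤ K → Lf q f →
  ∃ A R, Gd θ 1 K q (4 * (q : ℝ) ^ 2) (fun b => bi (f b)) A R

/-- GDA: average nodes. -/
def T_GDA : Prop := ∀ (ι κ : Type) [Fintype ι] [DecidableEq ι] [Fintype κ] (θ ε K q Rb : ℝ)
  (w : κ → ℝ) (G : κ → (ι → Bool) → ℝ), 0 < θ → 0 ≤ ε → 0 ≤ K → (∀ m, 0 ≤ w m) → ∑ m, w m = 1 →
  (∀ m, ∃ A R, Gd θ ε K q Rb (G m) A R) → ∃ A R, Gd θ ε K q Rb (fun b => ∑ m, w m * G m b) A R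

/-- GDC: choice nodes. -/
def T_GDC : Prop := ∀ (ι κ : Type) [Fintype ι] [DecidableEq ι] [Fintype κ] (β θ ε K q Rb : ℝ)
  (w : κ → ℝ) (G : κ → (ι → Bool) → ℝ), 0 < β → 0 < θ → θ ≤ 1 / 2 → 1 ≤ ε →
  Real.exp (2 * β * θ) * ε ≤ 4 / 3 → Real.exp (6 * β * θ) ≤ 2.12 → 2 * θ⁻¹ ^ 2 ≤ K → 0 ≤ q →
  (∀ m, 0 ≤ w m) → ∑ m, w m = 1 → (∀ m, ∃ A R, Gd θ ε K q Rb (G m) A R) →
  ∃ A R, Gd θ (Real.exp (2 * β * θ) * ε) (Real.exp (6 * β * θ) * K + 36 * β * θ⁻¹ ^ 2) q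
    (Rb + 8 * q ^ 2) (fun b => sm β w fun m => G m b) A R

/-- GDF: the second Fourier level. -/
def T_GDF : Prop := ∀ (ι : Type) [Fintype ι] [DecidableEq ι] (θ ε K q Rb : ℝ) (G : (ι → Bool) → ℝ)
  (A : ι → (ι → Bool) → ℝ) (R : ι → ι → (ι → Bool) → ℝ), 0 ≤ K → Gd θ ε K q Rb G A R →
  L12 G ≤ K * Rb

/-- RSG: restrictions of games are games. -/
def T_RSG : Prop := ∀ (ι : Type) (β : ℝ) (q h : ℕ) (F : (ι → Bool) → ℝ) (ρ : ι → Option Bool),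
  Gm β q h F → Gm β q h (rst ρ F)

/-- GMB: the values of games are between 0 and 1. -/
def T_GMB : Prop := ∀ (ι : Type) (β : ℝ) (q h : ℕ) (F : (ι → Bool) → ℝ), 0 < β → Gm β q h F →
  ∀ b, 0 ≤ F b ∧ F b ≤ 1

/-- L12G: the second Fourier level of a game. -/
def T_L12G : Prop := ∀ (ι : Type) [Fintype ι] [DecidableEq ι] (β : ℝ) (q h k : ℕ)
  (F : (ι → Bool) → ℝ), 1 ≤ β → h ≤ k → 1 ≤ k → Gm β q h F →
  L12 F ≤ 65536 * β ^ 3 * k ^ 4 * q ^ 2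

end Pool.Agent.H18.IP
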