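import Pool.Agent.H66.IP.TC
import Pool.Agent.H70.EI.Targets

/-!
Module WFL of the board ipf_modules.
-/

set_option autoImplicit false

namespace Pool.Agent.H18.IP

open Finset Pool.Agent.H66.IP Pool.Agent.H6.NB Pool.Agent.H70.OQ Pool.Agent.H70.EH
open Pool.Agent.H70.EI Pool.Agent.H78.XQ

theorem cl_succ {X : Type} {S : ℕ} (hS : 1 ≤ S) {d : ℕ} {f : (X → Bool) → Bool} (h : Cl X S d f) :
    Cl X S (d + 1) f := by
  refine ⟨1, fun _ => f, fun _ => true, hS, fun _ => h, fun y => ?_⟩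
  constructor
  · intro hy
    exact ⟨0, hy⟩
  · rintro ⟨_, hy⟩
    exact hy

theorem cl_mono {X : Type} {S : ℕ} (hS : 1 ≤ S) {d e : ℕ} (hde : d ≤ e) {f : (X → Bool) → Bool}
    (h : Cl X S d f) : Cl X S e f := by
  induction e, hde using Nat.le_induction with
  | base => exact h
  | succ e _ ih => exact cl_succ hS ih

theorem numW (c n : ℕ) (h : c + 3 ≤ n) : n ^ c + c + 1 ≤ 2 ^ n ^ 2 := by
  have h1 : n ^ c ≤ 2 ^ (n * c) := by
    rw [pow_mul]
    exact Nat.pow_le_pow_left (Nat.lt_two_pow_self).le c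
  have h2 : n * c + 1 ≤ n ^ 2 := by nlinarith
  have h3 : c + 1 ≤ 2 ^ (c + 1) := (Nat.lt_two_pow_self).le
  have h4 : c + 1 + 1 ≤ n ^ 2 := by nlinarith
  have h5 : 2 * 2 ^ (n * c) ≤ 2 ^ n ^ 2 := by
    rw [← pow_succ']
    exact Nat.pow_le_pow_right (by norm_num) h2
  have h6 : 2 * 2 ^ (c + 1) ≤ 2 ^ n ^ 2 := by
    rw [← pow_succ']
    exact Nat.pow_le_pow_right (by norm_num) h4
  omega

theorem pf_WFL (hLCL : Pool.Agent.H70.EI.T_LCL) (hIZU : T_IZU) (hSPF : T_SPF) (hBFW : T_BFW) :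
    T_WFL := by
  classical
  intro V k M
  refine ⟨k + M.c + 3, fun n hn => ?_⟩
  intro E O hO P g p h b hp
  obtain ⟨-, -, hSz, -⟩ := hSPF V
  set r := scl V p with hr
  have hc1 : n ^ M.c + M.c + 1 ≤ 2 ^ r ^ 2 :=
    (numW M.c n (by omega)).trans (Nat.pow_le_pow_right (by norm_num)
      (Nat.pow_le_pow_left (by omega) 2))
  have hS : 2 ^ (n ^ M.c + M.c + 1) ≤ 2 ^ 2 ^ r ^ 2 := Nat.pow_le_pow_right (by norm_num) hc1
  have hS2 : 2 ≤ 2 ^ 2 ^ r ^ 2 := by
    calc 2 = 2 ^ 1 := rfl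
      _ ≤ 2 ^ 2 ^ r ^ 2 := Nat.pow_le_pow_right (by norm_num) Nat.one_le_two_pow
  have key : ∀ (X : Type) (O' : (X → Bool) → List Bool → Bool), Lit O' →
      Cl X (2 ^ 2 ^ r ^ 2) (r + 1) fun y => decide (List.replicate n false ∈ M.lang (O' y)) := by
    intro X O' hL
    have h1 := hLCL X (2 ^ 2 ^ r ^ 2) (n ^ M.c + M.c) k
      (fun ws => M.tree (List.replicate n false) ws) O' hS2 hS hL (fun ws hl hws => by
        have h2 := M.depth_le (List.replicate n false) ws hl
        have h3 := M.short (List.replicate n false) ws hl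
        rw [List.length_replicate] at h2 h3
        exact ⟨h2 hws, h3 hws⟩)
    have h2 := cl_mono (by omega : 1 ≤ 2 ^ 2 ^ r ^ 2) (by omega : k + 3 ≤ r + 1) h1
    have e : (fun y : X → Bool => decide (Alt (fun w => w.length ≤ n ^ M.c + M.c) true k fun ws =>
        (M.tree (List.replicate n false) ws).eval (O' y) = true)) =
        fun y => decide (List.replicate n false ∈ M.lang (O' y)) := by
      funext y
      rw [decide_eq_decide]
      have e3 : List.replicate n false ∈ M.lang (O' y) ↔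
          Alt (fun w => w.length ≤ (List.replicate n false).length ^ M.c + M.c) true k fun ws =>
            (M.tree (List.replicate n false) ws).eval (O' y) = true := Iff.rfl
      rw [e3, List.length_replicate]
    rw [← e]
    exact h2
  have hIZ := (hIZU (Pool.Agent.H66.IP.dm V) E O hO).1 P g p h
  obtain ⟨-, hI2, hI3⟩ := hIZ
  have hB := hBFW r (sp V p).length (qs (sp V p)) (rns (sp V p)) (wln (sp V p)) (hSz p) b
    (fun c => decide (List.replicate n false ∈
      M.lang (O (Function.update P ⟨p, h⟩ c) g)))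
    (fun P' u h' => key _ _ (hI2 (P', h') u)) (fun P' => key _ _ (hI3 (P', fun _ => false)))
  exact hB

end Pool.Agent.H18.IP
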